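import Pool.Agent.helper44.EX.Spec

set_option autoImplicit false

open Complex Metric Set Filter Topology MeasureTheory Pool.Agent.helper98.ILF

noncomputable section

namespace EX

theorem RHO_norm_lt {a : ℂ} (ha : a ∈ ball (0 : ℂ) 1) : ‖a‖ < 1 := by
  simpa using ha

theorem RHO_conj (a b : ℂ) : ‖1 - (starRingEnd ℂ) b * a‖ = ‖1 - (starRingEnd ℂ) a * b‖ := by
  rw [← Complex.norm_conj (1 - (starRingEnd ℂ) b * a)]
  simp [mul_comm]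

theorem RHO_conj' (a b : ℂ) : ‖1 + b * (starRingEnd ℂ) a‖ = ‖1 + (starRingEnd ℂ) b * a‖ := by
  rw [← Complex.norm_conj (1 + b * (starRingEnd ℂ) a)]
  simp

theorem RHO_id (a b : ℂ) : ‖1 - (starRingEnd ℂ) a * b‖ ^ 2 - ‖a - b‖ ^ 2 =
    (1 - ‖a‖ ^ 2) * (1 - ‖b‖ ^ 2) := by
  simp only [Complex.sq_norm, Complex.normSq_apply, Complex.sub_re, Complex.sub_im, Complex.mul_re,
    Complex.mul_im, Complex.conj_re, Complex.conj_im, Complex.one_re, Complex.one_im]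
  ring

theorem RHO_ne {a b : ℂ} (ha : a ∈ ball (0 : ℂ) 1) (hb : b ∈ ball (0 : ℂ) 1) :
    0 < ‖1 - (starRingEnd ℂ) a * b‖ := by
  have h1 := RHO_norm_lt ha
  have h2 := RHO_norm_lt hb
  have h3 : ‖(starRingEnd ℂ) a * b‖ < 1 := by
    rw [norm_mul, Complex.norm_conj]
    nlinarith [norm_nonneg a, norm_nonneg b]
  rw [norm_pos_iff]
  intro h
  have h4 : (starRingEnd ℂ) a * b = 1 := (sub_eq_zero.1 h).symm
  rw [h4] at h3
  simp at h3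

theorem RHO_one {a b : ℂ} (ha : a ∈ ball (0 : ℂ) 1) (hb : b ∈ ball (0 : ℂ) 1) :
    0 ≤ rho a b ∧ rho a b < 1 ∧ rho a b = rho b a ∧
    1 - rho a b ^ 2 = (1 - ‖a‖ ^ 2) * (1 - ‖b‖ ^ 2) / ‖1 - (starRingEnd ℂ) a * b‖ ^ 2 := by
  have h1 := RHO_norm_lt ha
  have h2 := RHO_norm_lt hb
  have hp := RHO_ne ha hb
  have hid := RHO_id a b
  have h0 : 0 ≤ rho a b := div_nonneg (norm_nonneg _) (norm_nonneg _)
  have hf : 1 - rho a b ^ 2 = (1 - ‖a‖ ^ 2) * (1 - ‖b‖ ^ 2) / ‖1 - (starRingEnd ℂ) a * b‖ ^ 2 := by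
    rw [← hid]
    unfold rho
    rw [div_pow, sub_div, div_self (pow_pos hp 2).ne']
  refine ⟨h0, ?_, ?_, hf⟩
  · have h3 : 0 < 1 - rho a b ^ 2 := by
      rw [hf]
      refine div_pos (mul_pos ?_ ?_) (pow_pos hp 2)
      · nlinarith [norm_nonneg a]
      · nlinarith [norm_nonneg b]
    nlinarith
  · unfold rho
    rw [norm_sub_rev a b, RHO_conj a b]

theorem RHO_inv {c a b : ℂ} (hc : c ∈ ball (0 : ℂ) 1) (ha : a ∈ ball (0 : ℂ) 1)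
    (hb : b ∈ ball (0 : ℂ) 1) (h1a : 1 + (starRingEnd ℂ) c * a ≠ 0)
    (h1b : 1 + (starRingEnd ℂ) c * b ≠ 0) : rho (tau c a) (tau c b) = rho a b := by
  have hc1 := RHO_norm_lt hc
  have h1a' : 1 + c * (starRingEnd ℂ) a ≠ 0 := by
    rw [← norm_ne_zero_iff, RHO_conj', norm_ne_zero_iff]
    exact h1a
  have e1 : tau c a - tau c b = (a - b) * (1 - (starRingEnd ℂ) c * c) /
      ((1 + (starRingEnd ℂ) c * a) * (1 + (starRingEnd ℂ) c * b)) := by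
    unfold tau
    rw [div_sub_div _ _ h1a h1b]
    congr 1
    ring
  have e2 : 1 - (starRingEnd ℂ) (tau c a) * tau c b = (1 - (starRingEnd ℂ) c * c) *
      (1 - (starRingEnd ℂ) a * b) / ((1 + c * (starRingEnd ℂ) a) * (1 + (starRingEnd ℂ) c * b)) := by
    unfold tau
    rw [map_div₀, map_add, map_add, map_mul, Complex.conj_conj, map_one, div_mul_div_comm,
      eq_div_iff (mul_ne_zero h1a' h1b), sub_mul, div_mul_cancel₀ _ (mul_ne_zero h1a' h1b)]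
    ring
  have hcc : (1 - (starRingEnd ℂ) c * c) ≠ 0 := by
    have : (starRingEnd ℂ) c * c = ((‖c‖ ^ 2 : ℝ) : ℂ) := by
      rw [mul_comm, Complex.mul_conj, Complex.normSq_eq_norm_sq]
    rw [this]
    intro h
    have h3 : ((‖c‖ ^ 2 : ℝ) : ℂ) = 1 := (sub_eq_zero.1 h).symm
    have h4 : ‖c‖ ^ 2 = 1 := by exact_mod_cast h3
    nlinarith [norm_nonneg c]
  unfold rho
  rw [e1, e2, norm_div, norm_div, norm_mul, norm_mul, norm_mul, norm_mul, RHO_conj' a c]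
  have n1 : ‖1 - (starRingEnd ℂ) c * c‖ ≠ 0 := norm_ne_zero_iff.2 hcc
  have n2 : ‖1 + (starRingEnd ℂ) c * a‖ ≠ 0 := norm_ne_zero_iff.2 h1a
  have n3 : ‖1 + (starRingEnd ℂ) c * b‖ ≠ 0 := norm_ne_zero_iff.2 h1b
  have n4 : ‖1 - (starRingEnd ℂ) a * b‖ ≠ 0 := (RHO_ne ha hb).ne'
  generalize ‖1 - (starRingEnd ℂ) c * c‖ = x1 at n1 ⊢
  generalize ‖1 + (starRingEnd ℂ) c * a‖ = x2 at n2 ⊢
  generalize ‖1 + (starRingEnd ℂ) c * b‖ = x3 at n3 ⊢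
  generalize ‖1 - (starRingEnd ℂ) a * b‖ = x4 at n4 ⊢
  generalize ‖a - b‖ = x5
  field_simp

theorem RHO_LL_mono {s t : ℝ} (h : s ≤ t) (ht : t < 1) : LL s ≤ LL t := by
  unfold LL
  rw [div_le_div_iff₀ (by linarith) (by linarith)]
  nlinarith

theorem RHO_tri {a c : ℂ} (ha : a ∈ ball (0 : ℂ) 1) (hc : c ∈ ball (0 : ℂ) 1) :
    LL (rho a c) ≤ LL ‖a‖ * LL ‖c‖ := by
  obtain ⟨h0, h1, -, hf⟩ := RHO_one ha hc
  have ha1 := RHO_norm_lt ha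
  have hc1 := RHO_norm_lt hc
  have hx0 := norm_nonneg a
  have hy0 := norm_nonneg c
  have hp := RHO_ne ha hc
  have hxy : 0 < 1 + ‖a‖ * ‖c‖ := by positivity
  have hle : ‖1 - (starRingEnd ℂ) a * c‖ ≤ 1 + ‖a‖ * ‖c‖ := by
    calc ‖1 - (starRingEnd ℂ) a * c‖ ≤ ‖(1 : ℂ)‖ + ‖(starRingEnd ℂ) a * c‖ := norm_sub_le _ _
      _ = 1 + ‖a‖ * ‖c‖ := by rw [norm_mul, Complex.norm_conj, norm_one]
  have hnum : 0 < (1 - ‖a‖ ^ 2) * (1 - ‖c‖ ^ 2) := by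
    refine mul_pos ?_ ?_
    · nlinarith
    · nlinarith
  have h2 : (1 - ‖a‖ ^ 2) * (1 - ‖c‖ ^ 2) / (1 + ‖a‖ * ‖c‖) ^ 2 ≤ 1 - rho a c ^ 2 := by
    rw [hf]
    refine div_le_div_of_nonneg_left hnum.le (pow_pos hp 2) ?_
    exact pow_le_pow_left₀ hp.le hle 2
  have h3 : 1 - ((‖a‖ + ‖c‖) / (1 + ‖a‖ * ‖c‖)) ^ 2 =
      (1 - ‖a‖ ^ 2) * (1 - ‖c‖ ^ 2) / (1 + ‖a‖ * ‖c‖) ^ 2 := by
    rw [div_pow, eq_div_iff (pow_pos hxy 2).ne', sub_mul, div_mul_cancel₀ _ (pow_pos hxy 2).ne']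
    ring
  have h4 : rho a c ^ 2 ≤ ((‖a‖ + ‖c‖) / (1 + ‖a‖ * ‖c‖)) ^ 2 := by
    rw [← h3] at h2
    linarith
  have h5 : 0 ≤ (‖a‖ + ‖c‖) / (1 + ‖a‖ * ‖c‖) := by positivity
  have h6 : rho a c ≤ (‖a‖ + ‖c‖) / (1 + ‖a‖ * ‖c‖) := by
    exact (pow_le_pow_iff_left₀ h0 h5 (by norm_num)).1 h4
  have h7 : (‖a‖ + ‖c‖) / (1 + ‖a‖ * ‖c‖) < 1 := by
    rw [div_lt_one hxy]
    nlinarith
  refine (RHO_LL_mono h6 h7).trans (le_of_eq ?_)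
  unfold LL
  have e1 : (1 - ‖a‖) ≠ 0 := by linarith
  have e2 : (1 - ‖c‖) ≠ 0 := by linarith
  have e3 : (1 : ℝ) + (‖a‖ + ‖c‖) / (1 + ‖a‖ * ‖c‖) =
      (1 + ‖a‖) * (1 + ‖c‖) / (1 + ‖a‖ * ‖c‖) := by
    field_simp
    ring
  have e4 : (1 : ℝ) - (‖a‖ + ‖c‖) / (1 + ‖a‖ * ‖c‖) =
      (1 - ‖a‖) * (1 - ‖c‖) / (1 + ‖a‖ * ‖c‖) := by
    field_simp
    ring
  rw [e3, e4, div_div_div_cancel_right₀ hxy.ne', mul_div_mul_comm]

theorem RHO (hMOB : MOB_stmt) : RHO_stmt := by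
  refine ⟨fun a ha b hb => RHO_one ha hb, ?_, ?_, ?_⟩
  · intro a
    constructor
    · unfold rho
      simp
    · unfold rho
      simp
  · intro c hc a ha b hb
    exact RHO_inv hc ha hb ((hMOB c hc).1 a ha) ((hMOB c hc).1 b hb)
  · intro a ha b hb c hc
    have hnb : -b ∈ ball (0 : ℂ) 1 := by
      simpa using hb
    have h1 := hMOB (-b) hnb
    have h2 := hMOB b hb
    have ha' : tau (-b) a ∈ ball (0 : ℂ) 1 := h1.2.2.1 ha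
    have hc' : tau (-b) c ∈ ball (0 : ℂ) 1 := h1.2.2.1 hc
    have h3 : ‖tau (-b) a‖ = rho a b := by
      rw [h2.2.2.2.2.2.2.2.1 a ha, (RHO_one ha hb).2.2.1]
    have h4 : ‖tau (-b) c‖ = rho b c := h2.2.2.2.2.2.2.2.1 c hc
    have h5 : rho (tau (-b) a) (tau (-b) c) = rho a c :=
      RHO_inv hnb ha hc (h1.1 a ha) (h1.1 c hc)
    have h6 := RHO_tri ha' hc'
    rw [h5, h3, h4] at h6
    exact h6

end EX
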